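import Pool.Agent.H36.AO.PStmts

/-!
Module KLC: a new real of the first side has countably many old neighbours.
-/

set_option linter.unusedVariables false
set_option linter.unusedSectionVars false
set_option synthInstance.maxSize 100000

namespace AO.BP

open SW

section
variable {M : Type} [SetStr M] [ZF M]

/-- the union of a closed set and a set which is closed relative to it -/
theorem klc_gd {T D C : M} (hD : Clo T D) (hC : Gd T C)
    (hDC : ∀ d n, E d C → ¬ E d D → E n (nb T d) → E n D → E n C) : Gd T (bun D C) := by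
  intro d d' n hd hd' hne hn hn'
  rw [mem_bun] at hd hd' ⊢
  by_cases h1 : E d D
  · exact Or.inl (hD d n h1 hn)
  by_cases h2 : E d' D
  · exact Or.inl (hD d' n h2 hn')
  exact Or.inr (hC d d' n (hd.resolve_left h1) (hd'.resolve_left h2) hne hn hn')

/-- facts of conditions over the union -/
theorem klc_dec {l T P D C : M} (cf : CFac l T P) (hD : Clo T D)
    (hDC : ∀ d n, E d C → ¬ E d D → E n (nb T d) → E n D → E n C) (p z : M)
    (hp : E p (PD P (bun D C))) (hz : E z p) : E z (rst p D) ∨ E z (rst p C) := by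
  obtain ⟨hp, hs⟩ := mem_PD.1 hp
  obtain ⟨g, j, i, k, rfl, hj, hi, hk, hg, h2, h3⟩ := cf.fct p z hp hz
  have hi' : E i (bun D C) := hs i (mem_SP.2 ⟨_, hz, Or.inl (by simp)⟩)
  have hk' : E k (bun D C) := hs k (mem_SP.2 ⟨_, hz, Or.inr (by simp)⟩)
  rw [mem_rst, mem_rst, x1_fct, x2_fct]
  rw [mem_bun] at hi' hk'
  by_cases hg2 : g = nu 2
  · have hb := h2 hg2
    by_cases hiD : E i D
    · exact Or.inl ⟨hz, hiD, hD i k hiD hb⟩
    · have hiC := hi'.resolve_left hiD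
      refine Or.inr ⟨hz, hiC, ?_⟩
      rcases hk' with hk' | hk'
      · exact hDC i k hiC hiD hb hk'
      · exact hk'
  · have e := h3 hg2
    subst e
    rcases hi' with h | h
    · exact Or.inl ⟨hz, h, h⟩
    · exact Or.inr ⟨hz, h, h⟩

/-- the set of the conditions over a countable set is countable -/
theorem klc_cb (hcb : CbFacts M) {l T P C : M} (cf : CFac l T P) (hC : Cb C) : Cb (PD P C) := by
  have h3 : Cb (ins (nu 0) (ins (nu 1) (ins (nu 2) emp)) : M) :=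
    hcb.fin (finF.ins (finF.ins (finF.ins finF.emp)))
  have hW : Cb (prod (ins (nu 0) (ins (nu 1) (ins (nu 2) emp))) (prod om (prod C C))) :=
    hcb.prod h3 (hcb.prod hcb.om (hcb.prod hC hC))
  refine hcb.sub (hcb.fsub hW) fun p hp => ?_
  obtain ⟨hp, hs⟩ := mem_PD.1 hp
  rw [mem_sep' inferInstance, mem_pow]
  refine ⟨fun z hz => ?_, cf.fnt p hp⟩
  obtain ⟨g, j, i, k, rfl, hj, hi, hk, hg, h2, h3⟩ := cf.fct p z hp hz
  have hi' : E i C := hs i (mem_SP.2 ⟨_, hz, Or.inl (by simp)⟩)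
  have hk' : E k C := hs k (mem_SP.2 ⟨_, hz, Or.inr (by simp)⟩)
  unfold BP.fct
  refine mem_prod.2 ⟨?_, mem_prod.2 ⟨hj, mem_prod.2 ⟨hi', hk'⟩⟩⟩
  rw [mem_ins, mem_ins, mem_ins]
  tauto

theorem klc_pd {P X Y : M} (h : Sub X Y) : Sub (PD P X) (PD P Y) := fun p hp => by
  rw [mem_PD] at hp ⊢
  exact ⟨hp.1, hp.2.trans h⟩

theorem klc_prod {P X Y σ : M} (h : Sub X Y) (hs : Sub σ (prod om (PD P X))) :
    Sub σ (prod om (PD P Y)) := fun z hz => by
  obtain ⟨j, q, hj, hq, rfl⟩ := mem_prod'.1 (hs z hz)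
  exact mem_prod.2 ⟨hj, klc_pd h q hq⟩

theorem klc_prodP {P X σ : M} (hs : Sub σ (prod om (PD P X))) :
    Sub σ (prod om P) := fun z hz => by
  obtain ⟨j, q, hj, hq, rfl⟩ := mem_prod'.1 (hs z hz)
  exact mem_prod.2 ⟨hj, (mem_PD.1 hq).1⟩

end

/-- a finite piece of the graph of a sequence -/
theorem klc_fnt {N : Type} [SetStr N] [ZF N] (hS : Std N) (hst : STFStmt) {y K : N} {a : ℕ → ℕ}
    (hy : Sub y om) (hya : AO.rb y = gc a) {n : ℕ}
    (hK : ∀ j : ℕ, E (nu j) K → (Nat.unpair j).1 < n) : Fnt (inter y K) := by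
  rw [(hst N hS).1]
  refine Set.Finite.subset ((Set.finite_lt_nat n).image
    (fun k => (nu (Nat.pair k (a k)) : N))) fun z hz => ?_
  have hz' : E z (inter y K) := hz
  rw [mem_inter] at hz'
  obtain ⟨j, rfl⟩ := hS z (hy z hz'.1)
  have h1 : AO.rb y j = true := by
    simp only [AO.rb, decide_eq_true_eq]
    exact hz'.1
  rw [hya] at h1
  have h2 : a (Nat.unpair j).1 = (Nat.unpair j).2 := by
    simpa only [gc, decide_eq_true_eq] using h1
  refine ⟨(Nat.unpair j).1, hK j hz'.2, ?_⟩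
  show nu (Nat.pair (Nat.unpair j).1 (a (Nat.unpair j).1)) = nu j
  rw [h2, Nat.pair_unpair]


/-- KLC -/
theorem ao_klc (hKLB : KLBStmt) (hTRU : TRUStmt) (hRSF : RSFStmt) (hXFC : XFCStmt)
    (hCFA : CFAStmt) (hDTH : DTHStmt) (hCSU : CSUStmt) (hCPR : CPRStmt) (hEVF : EVFStmt)
    (hABS : ABSStmt) (hDFO : DFOStmt) (hSTF : STFStmt) (hCBT : CBTStmt) (hOKV : OKVStmt)
    (hNUX : NUXStmt) : KLCStmt := by
  intro M _ _ _ l T F G hB _ D D' hD hDl hD' hD'l hN x hx hxD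
  have hmr := hB.mr
  have hS := hmr.std
  have hG := hB.gen
  have hri : RI F := hB.gf.le
  have cf : CFac l T F.P := hCFA M l T F hmr hB.gf
  have cb := hCBT M
  have cbN := hCBT (Ext F G)
  have cpr := hCPR M F G hri hB.ccc hG
  have hev := hEVF M F G hS hG
  have ab := hABS M F G hG
  have ef := embF hG
  have tf := traF hG
  have hnx := hNUX M F G hG
  have hSN : Std (Ext F G) := hnx.std hS
  have dfo := hDFO M F.P hmr
  obtain ⟨τ, Y, hτc, hYc, hYD', hYl, hτ, rfl⟩ := hCSU M l T F G hB D' x hx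
  obtain ⟨C, hYC, hCD', hCc, hCg, hDC⟩ := hDTH M l T D D' Y hB.tm hD'l hD' hN hYD' hYc
  have hXg : Gd T (bun D C) := klc_gd hD hCg hDC
  have hDg : Gd T D := fun d d' n hd _ _ hn _ => hD d n hd hn
  have hXf : XFac F.P (bun D C) := hXFC M l T F.P _ cf hXg
  have hDf : XFac F.P D := hXFC M l T F.P _ cf hDg
  have hCf : XFac F.P C := hXFC M l T F.P _ cf hCg
  have hDX : Sub D (bun D C) := fun z hz => mem_bun.2 (Or.inl hz)
  have hCX : Sub C (bun D C) := fun z hz => mem_bun.2 (Or.inr hz)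
  have hτC : Sub τ (prod om (PD F.P C)) := klc_prod hYC hτ
  have hnew : ∀ ρ, Sub ρ (prod om (PD F.P D)) → vl G ρ ≠ vl G τ := by
    intro ρ hρ he
    refine hxD ⟨ρ, hρ, hev.inj _ _ (hev.sub _) (hev.sub _) ?_⟩
    rw [hev.rb, hev.rb, he]
  have hKLB' := hKLB M F G (bun D C) D C hmr hri hG hXf hDf hDX hCX
    (fun p z hp hz => klc_dec cf hD hDC p z hp hz) τ hτC hnew
  -- the set of all data
  have hok : Cl3 (fun μ p σ : M => ∃ m : ℕ, μ = nu m ∧ OK F.P p σ τ m) := by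
    have h1 := dfo.ok
    exact (h1.comp4 (R := fun p σ t μ => ∃ m : ℕ, μ = nu m ∧ OK F.P p σ t m)
      (inferInstance : DfT (fun w : Fin 3 → M => w 1))
      (inferInstance : DfT (fun w : Fin 3 → M => w 2))
      (inferInstance : DfT (fun w : Fin 3 → M => τ))
      (inferInstance : DfT (fun w : Fin 3 → M => w 0)))
  have _ : ∀ {n : ℕ} {t s u : (Fin n → M) → M} [DfT t] [DfT s] [DfT u],
      Df (fun v => ∃ m : ℕ, t v = nu m ∧ OK F.P (s v) (u v) τ m) := fun {n t s u} _ _ _ =>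
    hok.comp3 (R := fun μ p σ => ∃ m : ℕ, μ = nu m ∧ OK F.P p σ τ m) inferInstance inferInstance
      inferInstance
  let PC : M := PD F.P C
  let Pw : M := pow (prod om F.P)
  let S : M := sep (prod om (prod PC (prod F.P Pw))) (fun z =>
    E (CC.fst (CC.snd (CC.snd z))) (PD F.P (bun D C)) ∧
    Sub (CC.snd (CC.snd (CC.snd z))) (prod om (PD F.P D)) ∧
    (∃ m : ℕ, CC.fst z = nu m ∧
      OK F.P (CC.fst (CC.snd (CC.snd z))) (CC.snd (CC.snd (CC.snd z))) τ m) ∧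
    rst (CC.fst (CC.snd (CC.snd z))) C = CC.fst (CC.snd z))
  have hS1 : ∀ μ s p σ : M, E (opair μ (opair s (opair p σ))) S ↔
      (E μ om ∧ E s PC ∧ E p F.P ∧ E σ Pw) ∧ E p (PD F.P (bun D C)) ∧
      Sub σ (prod om (PD F.P D)) ∧ (∃ m : ℕ, μ = nu m ∧ OK F.P p σ τ m) ∧ rst p C = s := by
    intro μ s p σ
    simp only [S]
    rw [mem_sep' inferInstance, mem_prod, mem_prod, mem_prod]
    simp only [CC.fst_opair, CC.snd_opair]
  let PCn : Ext F G := emb F G PC
  let Pwn : Ext F G := emb F G Pw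
  let Sn : Ext F G := emb F G S
  let A : Ext F G → Ext F G := fun q => img (sep (prod (gg F G) Pwn)
    (fun z => E (opair (CC.fst q) (opair (CC.snd q) z)) Sn)) (fun z => ev (gg F G) (CC.snd z))
  have hA : Fn1 A := by
    simp only [A]
    infer_instance
  have hmA : ∀ (q y : Ext F G), E y (A q) ↔ ∃ p σ : Ext F G, E p (gg F G) ∧ E σ Pwn ∧
      E (opair (CC.fst q) (opair (CC.snd q) (opair p σ))) Sn ∧ y = ev (gg F G) σ := by
    intro q y
    simp only [A]
    rw [mem_img' inferInstance]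
    constructor
    · rintro ⟨z, hz, rfl⟩
      rw [mem_sep' inferInstance] at hz
      obtain ⟨hz, h2⟩ := hz
      obtain ⟨p, σ, hp, hσ, rfl⟩ := mem_prod'.1 hz
      exact ⟨p, σ, hp, hσ, h2, by rw [CC.snd_opair]⟩
    · rintro ⟨p, σ, hp, hσ, h2, rfl⟩
      refine ⟨opair p σ, ?_, by rw [CC.snd_opair]⟩
      rw [mem_sep' inferInstance]
      exact ⟨mem_prod.2 ⟨hp, hσ⟩, h2⟩
  -- members of the sets `A q` in terms of the model
  have hmA' : ∀ (m : ℕ) (s : M) (y : Ext F G), E y (A (opair (emb F G (nu m)) (emb F G s))) ↔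
      ∃ p σ : M, G p ∧ E (opair (nu m) (opair s (opair p σ))) S ∧ y = va F G σ := by
    intro m s y
    rw [hmA]
    constructor
    · rintro ⟨p, σ, hp, hσ, h2, rfl⟩
      obtain ⟨p, hp1, rfl⟩ := (ef.G_mem _).1 hp
      obtain ⟨σ, hσ1, rfl⟩ := ef.trans _ _ hσ
      rw [CC.fst_opair, CC.snd_opair, ← tf.opair, ← tf.opair, ← tf.opair, ef.mem] at h2
      exact ⟨p, σ, hp1, h2, rfl⟩
    · rintro ⟨p, σ, hp, h2, rfl⟩
      refine ⟨emb F G p, emb F G σ, (ef.G_mem _).2 ⟨p, hp, rfl⟩,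
        (ef.mem _ _).2 ((hS1 _ _ _ _).1 h2).1.2.2.2, ?_, rfl⟩
      rw [CC.fst_opair, CC.snd_opair, ← tf.opair, ← tf.opair, ← tf.opair, ef.mem]
      exact h2
  -- the sets `A q` are countable
  have hAc : ∀ q, E q (prod (om : Ext F G) PCn) → Cb (A q) := by
    intro q hq
    obtain ⟨μ, s, hμ, hs, rfl⟩ := mem_prod'.1 hq
    rw [← tf.om] at hμ
    obtain ⟨μ, hμ1, rfl⟩ := ef.trans _ _ hμ
    obtain ⟨m, rfl⟩ := hS μ hμ1
    obtain ⟨s, hs1, rfl⟩ := ef.trans _ _ hs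
    obtain ⟨n, hn⟩ := hKLB' m s
    -- the set of numbers with small first component
    have hR6 : Cl3 (fun x y z : M => RR (RP 6) x y z) := RR_df hS (hmr.has 6)
    have _ : Cl (fun z : M => ∃ y : M, RR (RP 6) z (nu n) y) := by
      have _ : ∀ {k : ℕ} {t s u : (Fin k → M) → M} [DfT t] [DfT s] [DfT u],
          Df (fun v => RR (RP 6) (t v) (s v) (u v)) := fun {k t s u} _ _ _ =>
        hR6.comp3 (R := fun a b c => RR (RP 6) a b c) inferInstance inferInstance inferInstance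
      infer_instance
    let K : M := sep om (fun z => ∃ y : M, RR (RP 6) z (nu n) y)
    have hK : ∀ j : ℕ, E (nu j) K ↔ (Nat.unpair j).1 < n := by
      intro j
      simp only [K]
      rw [mem_sep' inferInstance]
      constructor
      · rintro ⟨_, y, t, ht, e1, e2, _⟩
        have ht' : (Nat.unpair (t 0)).1 < t 1 := ht
        rw [← CUR.nu_inj e1, ← CUR.nu_inj e2] at ht'
        exact ht'
      · intro h
        refine ⟨CUR.nu_mem_om _, nu 0, ![j, n, 0, 0, 0], ?_, rfl, rfl, rfl⟩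
        exact h
    have hKn : ∀ j : ℕ, E (nu j) (emb F G K) ↔ (Nat.unpair j).1 < n := by
      intro j
      rw [← hnx.nu, ef.mem, hK]
    refine cbN.inj (fun y => inter y (emb F G K)) inferInstance (cbN.fsub cbN.om) ?_ ?_
    · intro y hy
      obtain ⟨p, σ, hp, h2, rfl⟩ := (hmA' m s y).1 hy
      obtain ⟨_, hpX, hσ, ⟨m', e, hOK⟩, hrs⟩ := (hS1 _ _ _ _).1 h2
      obtain ⟨a, t, ha, ht⟩ := hOKV M F G hmr hri hG σ τ p m' (klc_prodP hσ) (klc_prodP hτC) hp
        hOK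
      rw [mem_sep' inferInstance, mem_pow]
      refine ⟨fun z hz => hev.sub σ z (mem_inter.1 hz).1, ?_⟩
      refine klc_fnt hSN hSTF (hev.sub σ) (a := a) ?_ (fun j hj => (hKn j).1 hj)
      rw [hev.rb, ha]
    · intro y y' hy hy' he
      obtain ⟨p, σ, hp, h2, rfl⟩ := (hmA' m s y).1 hy
      obtain ⟨p', σ', hp', h2', rfl⟩ := (hmA' m s y').1 hy'
      obtain ⟨_, hpX, hσ, ⟨m₁, e, hOK⟩, hrs⟩ := (hS1 _ _ _ _).1 h2
      obtain ⟨_, hpX', hσ', ⟨m₂, e', hOK'⟩, hrs'⟩ := (hS1 _ _ _ _).1 h2'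
      rw [← CUR.nu_inj e] at hOK
      rw [← CUR.nu_inj e'] at hOK'
      have h5 := hn p p' σ σ' hp hp' hpX hpX' hσ hσ' hOK hOK' hrs hrs' (fun j hj => by
        have h6 : E (nu j) (va F G σ) ↔ E (nu j) (va F G σ') := by
          have h7 : E (nu j : Ext F G) (inter (va F G σ) (emb F G K)) ↔
              E (nu j : Ext F G) (inter (va F G σ') (emb F G K)) := by
            have he' : inter (va F G σ) (emb F G K) = inter (va F G σ') (emb F G K) := he
            rw [he']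
          rw [mem_inter, mem_inter] at h7
          have h8 := (hKn j).2 hj
          tauto
        rw [hev.mem, hev.mem] at h6
        simp only [vl]
        exact decide_eq_decide.2 h6)
      refine hev.inj _ _ (hev.sub _) (hev.sub _) ?_
      rw [hev.rb, hev.rb, h5]
  refine ⟨sUn (img (prod om PCn) A), cbN.iUn A hA (cbN.prod cbN.om
    (cpr.cbu _ (klc_cb cb cf hCc))) hAc, fun y hy hZ => ?_⟩
  obtain ⟨σ, hσ, rfl⟩ := hy
  obtain ⟨t, a, ht, ha, hEE⟩ := hZ
  rw [hev.rb] at ht ha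
  obtain ⟨hAdm, m, hm⟩ := hEE
  obtain ⟨g, hg, hOK⟩ := hTRU M F G hmr hri hG σ τ a t m (klc_prodP hσ) (klc_prodP hτC) ha ht
    hAdm hm
  have hgP : E g F.P := hG.sub g hg
  have hOK' : OK F.P (rst g (bun D C)) σ τ m := (hRSF M F.P _ hXf).2 σ τ g m
    (klc_prod hDX hσ) (klc_prod hCX hτC) hgP hOK
  have hgX : E (rst g (bun D C)) (PD F.P (bun D C)) := hXf.rs g hgP
  have hgX' : E (rst g (bun D C)) F.P := (mem_PD.1 hgX).1
  have hgG : G (rst g (bun D C)) := hG.up g _ hg hgX' ((hri _ _).2 (hXf.le g))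
  have hs : E (rst (rst g (bun D C)) C) PC := hCf.rs _ hgX'
  rw [mem_sUn]
  refine ⟨A (opair (emb F G (nu m)) (emb F G (rst (rst g (bun D C)) C))), ?_, ?_⟩
  · rw [mem_img' hA]
    refine ⟨_, mem_prod.2 ⟨?_, (ef.mem _ _).2 hs⟩, rfl⟩
    rw [← tf.om, ef.mem]
    exact CUR.nu_mem_om _
  · rw [hmA']
    refine ⟨rst g (bun D C), σ, hgG, (hS1 _ _ _ _).2 ⟨⟨CUR.nu_mem_om _, hs, hgX',
      mem_pow.2 (klc_prodP hσ)⟩, hgX, hσ, ⟨m, rfl, hOK'⟩, rfl⟩, rfl⟩

end AO.BP
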