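import Pool.Agent.H36.AO.PStmts

/-!
Assembly of the statements about the second notion of forcing.
-/

set_option linter.unusedVariables false
set_option linter.unusedSectionVars false
set_option synthInstance.maxSize 100000

namespace AO.BP

open SW

theorem vrt_isV {N : Type} [SetStr N] [ZF N] {R : N} (h : ∀ x, E x R → Sub x om) :
    IsV (vrt R) := by
  intro v hv
  unfold vrt at hv
  rw [mem_bun, mem_img' inferInstance, mem_img' inferInstance] at hv
  rcases hv with ⟨x, hx, e⟩ | ⟨x, hx, e⟩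
  · exact ⟨x, h x hx, Or.inl e⟩
  · exact ⟨x, h x hx, Or.inr e⟩

/-- good orders, by induction -/
theorem good_orders (hCHN : CHNStmt) (hSTP : STPStmt) (hVSZ : VSZStmt) (hBSG : BSGStmt)
    (M : Type) [SetStr M] [ZFC M] [Countable M] (l T : M) (F : FPoset M) (G : M → Prop)
    (hB : Bsp l T F G) (hch : Sz 1 (pow om : M)) [ZFC (Ext F G)] (hz : ZD (Ext F G)) :
    ∀ (n : ℕ) (D : M), Clo T D → Sub D l → Sz (n + 1) D →
      ∃ W, GW (vrt (RN F G (emb F G D))) W
  | 0, D, _, hD, hs => hBSG _ _ (hVSZ M l T F G hB hch D hD hs)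
  | n + 1, D, hc, hD, hs => by
      obtain ⟨k, d, hk⟩ := hCHN M l T D n hB.tm hc hD hs
      refine hSTP M l T F G hB D k d n hz hc hD hk fun v hv => ?_
      obtain ⟨h1, h2, h3, h4⟩ := hk.clo v hv
      exact good_orders hCHN hSTP hVSZ hBSG M l T F G hB hch hz n _ h1 (h2.trans hD) h3

/-- two families of relations together -/
def mrg (R S : ℕ → Set (Fin 5 → ℕ)) (n : ℕ) : Set (Fin 5 → ℕ) :=
  if n % 2 = 0 then R (n / 2) else S (n / 2)

theorem mrg_left {R S : ℕ → Set (Fin 5 → ℕ)} {M : Type} [SetStr M] [ZF M]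
    (h : ∀ i, Has M (mrg R S i)) (i : ℕ) : Has M (R i) := by
  have := h (2 * i)
  unfold mrg at this
  rwa [if_pos (by omega), show 2 * i / 2 = i by omega] at this

theorem mrg_right {R S : ℕ → Set (Fin 5 → ℕ)} {M : Type} [SetStr M] [ZF M]
    (h : ∀ i, Has M (mrg R S i)) (i : ℕ) : Has M (S i) := by
  have := h (2 * i + 1)
  unfold mrg at this
  rwa [if_neg (by omega), show (2 * i + 1) / 2 = i by omega] at this

/-- PMAIN -/
theorem p_main (hSTD : STDStmt) (hWFX : WFXStmt) (hNUX : NUXStmt) (hZDX : ZDXStmt) (hCHN : CHNStmt)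
    (hGFE : GFEStmt) (hCFA : CFAStmt) (hCCB : CCBStmt) (hBDX : BDXStmt) (hTOP : TOPStmt)
    (hSTP : STPStmt) (hVSZ : VSZStmt) (hBSG : BSGStmt) (hEVF : EVFStmt) : PMAINStmt := by
  obtain ⟨S, hS⟩ := hZDX
  refine ⟨mrg RP S, fun M _ _ _ hwf hR hch l T hT => ?_⟩
  have hstd : Std M := hSTD M hwf
  have hmr : MR M := ⟨hstd, mrg_left hR⟩
  obtain ⟨F, hF⟩ := hGFE M l T hmr
  have hfs : FSFacts F := semF F
  obtain ⟨G, hG, _⟩ := hfs.ex F.one F.one_mem
  have hccc : CCC F.P := hCCB M l T F.P hT (hCFA M l T F hmr hF)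
  have hB : Bsp l T F G := ⟨hmr, hT, hF, hG, hccc⟩
  refine ⟨F, G, hG, fun {_} => ?_⟩
  have hnx := hNUX M F G hG
  have hz : ZD (Ext F G) := hS (Ext F G) (hWFX M F G hG hwf) fun i => hnx.has _ (mrg_right hR i)
  have hev : EvFac F G := hEVF M F G hstd hG
  refine ⟨?_, fun n V hV hn => ?_⟩
  · obtain ⟨y, w, h⟩ := hBDX M l T F G hB
    exact ⟨_, _, y, w, h⟩
  · obtain ⟨D, h1, h2, h3, h4⟩ := hTOP M l T F G hB n V hV hn
    obtain ⟨W, hW⟩ := good_orders hCHN hSTP hVSZ hBSG M l T F G hB hch hz n D h1 h2 h3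
    refine ⟨_, W, h4, vrt_isV fun x hx => ?_, hW⟩
    obtain ⟨σ, _, rfl⟩ := (hev.rn _ _).1 hx
    exact hev.sub σ

end AO.BP
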