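import Pool.Agent.H12.MA.DEL
import Pool.Agent.H12.MA.ZORN
import Pool.Agent.H13.AO.WFX
import Pool.Agent.H17.AO.KCA
import Pool.Agent.H17.AO.RSF
import Pool.Agent.H2.MA.SEQ
import Pool.Agent.H21.AO.GFD
import Pool.Agent.H21.AO.GFE
import Pool.Agent.H21.AO.QGN
import Pool.Agent.H21.AO.STF
import Pool.Agent.H21.AO.XFC
import Pool.Agent.H23.MA.MAXA
import Pool.Agent.H29.AO.COW
import Pool.Agent.H29.AO.CPR
import Pool.Agent.H29.AO.KLD
import Pool.Agent.H3.AO.RGA
import Pool.Agent.H31.AO.DXN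
import Pool.Agent.H31.AO.GCF
import Pool.Agent.H31.AO.LEP
import Pool.Agent.H31.AO.SEP
import Pool.Agent.H31.AO.UPS
import Pool.Agent.H31.CC.CHS
import Pool.Agent.H35.MA.ACF
import Pool.Agent.H36.AO.KLC
import Pool.Agent.H36.AO.PMain
import Pool.Agent.H36.MA.W0
import Pool.Agent.H4.AO.AMB
import Pool.Agent.H4.AO.AMO
import Pool.Agent.H4.AO.GNR
import Pool.Agent.H4.AO.KLB
import Pool.Agent.H46.AO.FUL
import Pool.Agent.H46.AO.STP
import Pool.Agent.H46.AO.TOP
import Pool.Agent.H46.AO.VSZ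
import Pool.Agent.H51.AO.OKV
import Pool.Agent.H51.AO.TRU
import Pool.Agent.H51.AO.VLF
import Pool.Agent.H53.AO.CBN
import Pool.Agent.H53.AO.CHN
import Pool.Agent.H53.AO.CLN
import Pool.Agent.H64.AO.ABS
import Pool.Agent.H64.AO.EVF
import Pool.Agent.H72.AO.DTH
import Pool.Agent.H72.AO.SZA
import Pool.Agent.H74.AO.DFO
import Pool.Agent.H74.AO.GLU
import Pool.Agent.H74.AO.HFinal
import Pool.Agent.H74.AO.KLA
import Pool.Agent.H83.AO.ALF
import Pool.Agent.H83.AO.CLT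
import Pool.Agent.H83.AO.SZF
import Pool.Agent.H83.AO.TMF
import Pool.Agent.H9.AO.HES
import Pool.Agent.H93.MA.CBT
import Pool.Agent.H94.AO.BDX
import Pool.Agent.H94.AO.BSG
import Pool.Agent.H94.AO.CSU
import Pool.Agent.H94.AO.CVC
import Pool.Agent.H94.AO.NAM
import Pool.Agent.H98.AO.CCB
import Pool.Agent.H98.AO.CFA

/-!
All modules of block P together: the extension of the model.
-/

set_option linter.unusedVariables false
set_option synthInstance.maxSize 100000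

namespace AO.BP

open SW

theorem p_acf : ACFStmt := ma_acf
theorem p_cbt : CBTStmt := ma_cbt p_acf
theorem p_chs : CC.CHSStmt := CC.cc_chs p_acf
theorem p_zorn : ZORNStmt := ma_zorn p_acf
theorem p_maxa : MAXAStmt := ma_maxa p_zorn
theorem p_seq : SEQStmt := ma_seq p_acf p_cbt
theorem p_del : DELStmt := ma_del p_seq p_cbt ma_w0

theorem p_alf : ALFStmt := alf
theorem p_szf : SZFStmt := szf p_alf (hes p_alf) (sza p_alf)
theorem p_cln : CLNStmt := cln p_szf
theorem p_rga : RGAStmt := rga p_alf p_szf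
theorem p_tmf : TMFStmt := tmf p_alf p_szf p_cln
theorem p_clt : CLTStmt := clt
theorem p_dth : DTHStmt := dth p_clt p_tmf
theorem p_cbn : CBNStmt := cbn p_alf p_szf p_rga
theorem p_chn : CHNStmt := chn p_alf p_szf p_cln p_rga
theorem p_nux : NUXStmt := nux

theorem p_gcf : GCFStmt := ao_gcf
theorem p_lep : LEPStmt := ao_lep
theorem p_ups : UPSStmt := ao_ups
theorem p_dxn : DXNStmt := ao_dxn p_lep p_ups
theorem p_sep : SEPStmt := ao_sep p_lep p_ups
theorem p_amo : AMOStmt := ao_amo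
theorem p_amb : AMBStmt := ao_amb p_lep p_dxn p_sep p_amo
theorem p_stf : STFStmt := ao_stf
theorem p_gfd : GFDStmt := ao_gfd p_stf
theorem p_gfe : GFEStmt := ao_gfe p_stf p_gfd p_lep
theorem p_cfa : CFAStmt := ao_cfa p_stf p_lep p_amb
theorem p_xfc : XFCStmt := ao_xfc
theorem p_ccb : CCBStmt := ao_ccb p_tmf p_del p_cbt
theorem p_gnr : GNRStmt := ao_gnr p_dxn
theorem p_rsf : RSFStmt := ao_rsf
theorem p_vlf : VLFStmt := ao_vlf p_gcf
theorem p_dfo : DFOStmt := ao_dfo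
theorem p_tru : TRUStmt := ao_tru p_gcf p_vlf
theorem p_okv : OKVStmt := ao_okv p_vlf p_dfo
theorem p_abs : ABSStmt := ao_abs
theorem p_evf : EVFStmt := ao_evf p_nux
theorem p_ful : FULStmt := ao_ful
theorem p_qgn : QGNStmt := ao_qgn
theorem p_cvc : CVCStmt := ao_cvc p_cbt p_acf p_chs
theorem p_cpr : CPRStmt := ao_cpr p_cvc p_szf p_alf
theorem p_cow : COWStmt := ao_cow p_cpr p_cvc p_szf p_alf
theorem p_nam : NAMStmt := ao_nam p_maxa p_cbt p_chs
theorem p_csu : CSUStmt := ao_csu p_nam p_evf p_cfa p_cbt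
theorem p_bdx : BDXStmt := ao_bdx p_gnr p_cvc p_cpr p_abs p_nux
theorem p_kla : KLAStmt := ao_kla p_gcf p_vlf p_dfo p_tru ao_kca p_qgn
theorem p_klb : KLBStmt := ao_klb p_gcf p_vlf p_okv ao_kcb
theorem p_klc : KLCStmt := ao_klc p_klb p_tru p_rsf p_xfc p_cfa p_dth p_csu p_cpr p_evf p_abs p_dfo
  p_stf p_cbt p_okv p_nux
theorem p_kld : KLDStmt := ao_kld p_kla p_evf p_ful p_xfc p_cfa
theorem p_glu : GLUStmt := ao_glu p_chs p_cbt
theorem p_stp : STPStmt := ao_stp p_glu p_csu p_klc p_kld p_evf p_abs p_cpr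
theorem p_top : TOPStmt := ao_top p_csu p_cow p_szf p_tmf p_evf p_cfa p_chs
theorem p_vsz : VSZStmt := ao_vsz p_cbn p_szf p_cpr p_evf p_csu p_cfa
theorem p_bsg : BSGStmt := ao_bsg p_alf p_cbt

end AO.BP

namespace AO

/-- block P: the extension of the model -/
theorem pmain_all : PMAINStmt :=
  BP.p_main std wfx nux zd_all BP.p_chn BP.p_gfe BP.p_cfa BP.p_ccb BP.p_bdx BP.p_top BP.p_stp
    BP.p_vsz BP.p_bsg BP.p_evf

end AO
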