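import Mathlib.Data.Set.Finite.Basic
import Pool.Agent.H98.AO.Rel

/-!
Finite approximations of the generic sequences, and the statements of the modules about them.
A finite approximation of level `n` consists of lists `a i` of length `n` (initial segments of
sequences of the second side), lists `t d` of length `n + 1` (initial segments of sequences of the
first side; their members are codes of finite sets of lists), both the empty list for all but
finitely many indices, and promises `B d i m`: the initial segments of `a i` of length at least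
`m` belong to the corresponding members of `t d`.
-/

namespace AO.BP

/-- the `k`-th finite set of lists of `u` -/
noncomputable def lv (u : List ℕ) (k : ℕ) : Finset (List ℕ) := fs (u.getD k 0)

/-- two different successors of a list code the initial segment of `u` -/
def spl (u : List ℕ) : Prop := ∀ (k : ℕ) (s : List ℕ) (x x' : ℕ), k + 1 < u.length →
  s ∈ lv u k → x ≠ x' → s ++ [x] ∈ lv u (k + 1) → s ++ [x'] ∈ lv u (k + 1) →
  (Nat.unpair x).1 = lc (u.take (k + 1)) ∧ (Nat.unpair x').1 = lc (u.take (k + 1))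

/-- every member of a finite set of lists of `u` has a successor in the next one -/
def prn (u : List ℕ) : Prop := ∀ (k : ℕ) (s : List ℕ), k + 1 < u.length → s ∈ lv u k →
  ∃ x, s ++ [x] ∈ lv u (k + 1)

/-- `u` is admissible -/
structure adm (u : List ℕ) : Prop where
  sp : spl u
  pr : prn u

/-- the initial segments of `s` of length at least `m` belong to `u` -/
def ad (m : ℕ) (u s : List ℕ) : Prop := ∀ k, m ≤ k → k ≤ s.length → s.take k ∈ lv u k

/-- A finite approximation. -/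
structure Cn (ι : Type) where
  a : ι → List ℕ
  t : ι → List ℕ
  B : ι → ι → ℕ → Prop

variable {ι : Type}

/-- the support -/
def Cn.sp (p : Cn ι) : Set ι := {i | p.a i ≠ [] ∨ p.t i ≠ []}

/-- `p` is an approximation of level `n` for the template `T` -/
structure PC (T : ι → ι → Prop) (p : Cn ι) (n : ℕ) : Prop where
  fa : {i | p.a i ≠ []}.Finite
  ft : {i | p.t i ≠ []}.Finite
  la : ∀ i, p.a i ≠ [] → (p.a i).length = n
  lt : ∀ d, p.t d ≠ [] → (p.t d).length = n + 1
  adm : ∀ d, adm (p.t d)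
  b : ∀ d i m, p.B d i m → T d i ∧ p.t d ≠ [] ∧ p.a i ≠ [] ∧ m ≤ n ∧ ad m (p.t d) (p.a i)

/-- `p` is a condition: indices with promises for the same `d` have different lists -/
structure VC (T : ι → ι → Prop) (p : Cn ι) : Prop where
  pc : ∃ n, PC T p n
  inj : ∀ d i j m m', p.B d i m → p.B d j m' → p.a i = p.a j → i = j

/-- the order: `q` is stronger than `p` -/
structure Le (q p : Cn ι) : Prop where
  a : ∀ i, p.a i <+: q.a i
  t : ∀ d, p.t d <+: q.t d
  B : ∀ d i m, p.B d i m → q.B d i m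

open Classical in
/-- the restriction of an approximation to `D` -/
noncomputable def Cn.rs (p : Cn ι) (D : Set ι) : Cn ι where
  a := fun i => if i ∈ D then p.a i else []
  t := fun i => if i ∈ D then p.t i else []
  B := fun d i m => d ∈ D ∧ i ∈ D ∧ p.B d i m

/-! ### statements -/

/-- GCF: facts about codes and initial segments -/
structure GcfFacts : Prop where
  /-- the sequence is determined by its graph -/
  inj : ∀ a b : ℕ → ℕ, gc a = gc b → a = b
  lc : ∀ s u : List ℕ, lc s = lc u → s = u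
  len : ∀ (a : ℕ → ℕ) n, (ini a n).length = n
  get : ∀ (a : ℕ → ℕ) n k, k < n → (ini a n)[k]? = some (a k)
  eq : ∀ (a b : ℕ → ℕ) n, ini a n = ini b n ↔ ∀ k, k < n → a k = b k
  take : ∀ (a : ℕ → ℕ) m n, m ≤ n → (ini a n).take m = ini a m
  succ : ∀ (a : ℕ → ℕ) n, ini a (n + 1) = ini a n ++ [a n]
  lv : ∀ (t : ℕ → ℕ) n k, k < n → lv (ini t n) k = fs (t k)
  spl : ∀ t : ℕ → ℕ, Adm t ↔ ∀ n, spl (ini t n)

/-- GCF -/
def GCFStmt : Prop := GcfFacts

/-- basic facts about approximations -/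
structure LepFacts : Prop where
  refl : ∀ (ι : Type) (p : Cn ι), Le p p
  trans : ∀ (ι : Type) (p q r : Cn ι), Le p q → Le q r → Le p r
  le_rs : ∀ (ι : Type) (p : Cn ι) (D : Set ι), Le p (p.rs D)
  rs_le : ∀ (ι : Type) (p q : Cn ι) (D : Set ι), Le q p → Le (q.rs D) (p.rs D)
  rs : ∀ (ι : Type) (T : ι → ι → Prop) (p : Cn ι) (D : Set ι), VC T p → VC T (p.rs D)
  one : ∀ (ι : Type) (T : ι → ι → Prop), VC T ⟨fun _ => [], fun _ => [], fun _ _ _ => False⟩
  /-- approximations of the same level: stronger means larger -/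
  eqa : ∀ (ι : Type) (T : ι → ι → Prop) (p q : Cn ι) (n : ℕ), PC T p n → PC T q n → Le q p →
    (∀ i, p.a i ≠ [] → q.a i = p.a i) ∧ ∀ d, p.t d ≠ [] → q.t d = p.t d

/-- LEP -/
def LEPStmt : Prop := LepFacts

/-- UPS: the next level. The letters `x i` are added to the lists `a i`, the promises `C` are
added, and the empty list is put into the new finite sets of the indices in `J`. -/
def UPSStmt : Prop := ∀ (ι : Type) (T : ι → ι → Prop) (p : Cn ι) (n : ℕ) (x : ι → ℕ)
  (C : ι → ι → Prop) (J : ι → Prop), PC T p n → (∀ d i, C d i → T d i ∧ p.t d ≠ [] ∧ p.a i ≠ []) →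
  (∀ d i j, ((∃ m, p.B d i m) ∨ C d i) → ((∃ m, p.B d j m) ∨ C d j) → p.a i = p.a j →
    x i = x j ∨ ((Nat.unpair (x i)).1 = lc (p.t d) ∧ (Nat.unpair (x j)).1 = lc (p.t d))) →
  ∃ q, PC T q (n + 1) ∧ Le q p ∧ (∀ i, p.a i ≠ [] → q.a i = p.a i ++ [x i]) ∧
    (∀ i, p.a i = [] → q.a i = []) ∧ (∀ d, q.t d = [] ↔ p.t d = []) ∧
    (∀ d, p.t d ≠ [] → ([] ∈ lv (q.t d) (n + 1) ↔ J d)) ∧
    ∀ d i m, q.B d i m ↔ p.B d i m ∨ (C d i ∧ m = n + 1)

/-- DXN: extensions of conditions -/
structure DxnFacts : Prop where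
  hi : ∀ (ι : Type) (T : ι → ι → Prop) (p : Cn ι) (k : ℕ), VC T p → ∃ q, VC T q ∧ Le q p ∧
    (∀ i, p.a i = [] → q.a i = []) ∧ (∀ d, p.t d = [] → q.t d = []) ∧
    (∀ i, p.a i ≠ [] → k ≤ (q.a i).length) ∧ ∀ d, p.t d ≠ [] → k ≤ (q.t d).length
  ea : ∀ (ι : Type) (T : ι → ι → Prop) (p : Cn ι) (i : ι) (k : ℕ), VC T p → ∃ q, VC T q ∧
    Le q p ∧ k ≤ (q.a i).length
  et : ∀ (ι : Type) (T : ι → ι → Prop) (p : Cn ι) (d : ι) (k : ℕ), VC T p → ∃ q, VC T q ∧
    Le q p ∧ k ≤ (q.t d).length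
  eb : ∀ (ι : Type) (T : ι → ι → Prop) (p : Cn ι) (d i : ι), VC T p → T d i → ∃ q, VC T q ∧
    Le q p ∧ ∃ m, q.B d i m
  da : ∀ (ι : Type) (T : ι → ι → Prop) (p : Cn ι) (i j : ι), VC T p → i ≠ j → ∃ q, VC T q ∧
    Le q p ∧ ∃ k v v' : ℕ, (q.a i)[k]? = some v ∧ (q.a j)[k]? = some v' ∧ v ≠ v'
  dt : ∀ (ι : Type) (T : ι → ι → Prop) (p : Cn ι) (d e : ι), VC T p → d ≠ e → ∃ q, VC T q ∧
    Le q p ∧ ∃ k v v' : ℕ, (q.t d)[k]? = some v ∧ (q.t e)[k]? = some v' ∧ v ≠ v'

/-- DXN -/
def DXNStmt : Prop := DxnFacts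

/-- SEP: separation. Conflicts (equal lists of indices with promises for the same `d`) occur only
between members and non-members of `I`, and every member of `I` has conflicts only for one `d`;
then some stronger approximation is a condition. -/
def SEPStmt : Prop := ∀ (ι : Type) (T : ι → ι → Prop) (p : Cn ι) (n : ℕ) (I : Set ι), PC T p n →
  (∀ d i j m m', p.B d i m → p.B d j m' → p.a i = p.a j → i ≠ j →
    (i ∈ I ∧ j ∉ I) ∨ (i ∉ I ∧ j ∈ I)) →
  (∀ i, i ∈ I → ∀ d e j j' m₁ m₂ m₃ m₄, p.B d i m₁ → p.B d j m₂ → p.a i = p.a j → i ≠ j →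
    p.B e i m₃ → p.B e j' m₄ → p.a i = p.a j' → i ≠ j' → d = e) →
  ∃ q, VC T q ∧ Le q p

/-- AMO: the first step of the amalgamation: `p` and `q` have a common extension of the level of
`q`, which is almost a condition -/
def AMOStmt : Prop := ∀ (ι : Type) (T : ι → ι → Prop) (X : Set ι) (p q : Cn ι) (m n : ℕ),
  VC T p → VC T q → PC T p m → PC T q n → m ≤ n → (∀ i, i ∈ p.sp → i ∈ q.sp → i ∈ X) →
  Le q (p.rs X) →
  (∀ i, i ∈ p.sp → i ∉ X → ∀ d e, d ∈ X → e ∈ X → T d i → T e i → d = e) →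
  ∃ r, PC T r n ∧ Le r p ∧ Le r q ∧
    (∀ d i k, r.B d i k → p.B d i k ∨ q.B d i k) ∧ (∀ i, q.a i ≠ [] → r.a i = q.a i)

/-- AMB: amalgamation over `X`, if every index of `p` outside `X` has at most one neighbour
in `X` -/
def AMBStmt : Prop := ∀ (ι : Type) (T : ι → ι → Prop) (X : Set ι) (p q : Cn ι), VC T p →
  VC T q → (∀ i, i ∈ p.sp → i ∈ q.sp → i ∈ X) → Le q (p.rs X) →
  (∀ i, i ∈ p.sp → i ∉ X → ∀ d e, d ∈ X → e ∈ X → T d i → T e i → d = e) →
  ∃ r, VC T r ∧ Le r p ∧ Le r q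

end AO.BP
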