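import Pool.Agent.H98.AO.Iface
import Pool.Agent.H78.CUR.NU
import Pool.Agent.H36.AO.PFin

/-!
Definitions for the second notion of forcing: relations between numbers inside a model, conditions
as finite sets of facts ordered by reverse inclusion, forced membership, names of reals.
-/

set_option linter.unusedVariables false
set_option linter.unusedSectionVars false
set_option synthInstance.maxSize 100000

namespace AO.BP

open SW

section
variable {M : Type} [SetStr M] [ZF M]

/-! ### relations between natural numbers inside a model -/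

/-- the points `x`, `y`, `z` are natural numbers in the relation `R` (with some further numbers) -/
def RR (R : Set (Fin 5 → ℕ)) (x y z : M) : Prop :=
  ∃ t : Fin 5 → ℕ, t ∈ R ∧ x = nu (t 0) ∧ y = nu (t 1) ∧ z = nu (t 2)

/-- such relations are definable -/
theorem RR_df {R : Set (Fin 5 → ℕ)} (hS : Std M) (h : Has M R) :
    Cl3 (fun x y z : M => RR R x y z) := by
  obtain ⟨a, ha⟩ := h
  have h1 : Cl3 (fun x y z : M => E x om ∧ E y om ∧ E z om ∧ ∃ u v : M, E u om ∧ E v om ∧
      E (opair x (opair y (opair z (opair u v)))) a) := inferInstance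
  refine h1.congr fun w => ?_
  constructor
  · rintro ⟨t, ht, e0, e1, e2⟩
    rw [e0, e1, e2]
    refine ⟨CUR.nu_mem_om _, CUR.nu_mem_om _, CUR.nu_mem_om _, nu (t 3), nu (t 4),
      CUR.nu_mem_om _, CUR.nu_mem_om _, ?_⟩
    exact (ha t).2 ht
  · rintro ⟨h0, h1, h2, u, v, hu, hv, h3⟩
    obtain ⟨n0, e0⟩ := hS _ h0
    obtain ⟨n1, e1⟩ := hS _ h1
    obtain ⟨n2, e2⟩ := hS _ h2
    obtain ⟨n3, e3⟩ := hS _ hu
    obtain ⟨n4, e4⟩ := hS _ hv
    rw [e0, e1, e2, e3, e4] at h3
    exact ⟨![n0, n1, n2, n3, n4], (ha ![n0, n1, n2, n3, n4]).1 h3, e0, e1, e2⟩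

/-- the relations which are used: pairing; length of a list; graph of a list; admissible lists;
promises; bad pairs of lists; numbers with small first component -/
def RP : ℕ → Set (Fin 5 → ℕ)
  | 0 => {t | t 0 = Nat.pair (t 1) (t 2)}
  | 1 => {t | ∃ s : List ℕ, t 0 = lc s ∧ t 1 = s.length}
  | 2 => {t | ∃ (s : List ℕ) (k v : ℕ), t 0 = lc s ∧ s[k]? = some v ∧ t 1 = Nat.pair k v}
  | 3 => {t | ∃ u : List ℕ, t 0 = lc u ∧ adm u}
  | 4 => {t | ∃ u s : List ℕ, t 0 = lc u ∧ t 1 = lc s ∧ t 2 ≤ s.length ∧ ad (t 2) u s}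
  | 5 => {t | ∃ u s : List ℕ, t 0 = lc u ∧ t 1 = lc s ∧ u.length = s.length + 1 ∧
      t 2 ≤ s.length ∧ ¬ (spl u ∧ s ∈ lv u s.length)}
  | 6 => {t | (Nat.unpair (t 0)).1 < t 1}
  | _ => {t | t 0 < t 1}

/-- the model has standard natural numbers and contains the relations which are used -/
structure MR (M : Type) [SetStr M] [ZF M] : Prop where
  std : Std M
  has : ∀ i, Has M (RP i)

/-! ### conditions -/

/-- a fact -/
noncomputable def fct (g j i k : M) : M := opair g (opair j (opair i k))

instance {n : ℕ} {t s u x : (Fin n → M) → M} [ht : DfT t] [hs : DfT s] [hu : DfT u]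
    [hx : DfT x] : DfT (fun v => fct (t v) (s v) (u v) (x v)) := by
  unfold fct; infer_instance

theorem fct_inj {g j i k g' j' i' k' : M} : fct g j i k = fct g' j' i' k' ↔
    g = g' ∧ j = j' ∧ i = i' ∧ k = k' := by
  unfold fct
  rw [opair_inj, opair_inj, opair_inj]

/-- the index type: the members of `l` -/
abbrev Ix (l : M) : Type := {x : M // E x l}

/-- the template as a relation -/
def Tt (l T : M) (i j : Ix l) : Prop := E j.1 (nb T i.1)

/-- the set `p` of facts encodes the approximation `c` -/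
def Enc (l p : M) (c : Cn (Ix l)) : Prop := ∀ z, E z p ↔
  (∃ (i : Ix l) (k v : ℕ), (c.a i)[k]? = some v ∧ z = fct (nu 0) (nu (Nat.pair k v)) i.1 i.1) ∨
  (∃ (d : Ix l) (k v : ℕ), (c.t d)[k]? = some v ∧ z = fct (nu 1) (nu (Nat.pair k v)) d.1 d.1) ∨
  ∃ (d i : Ix l) (m : ℕ), c.B d i m ∧ z = fct (nu 2) (nu m) d.1 i.1

/-- `F` is the second notion of forcing, for the template `T` -/
structure GF (l T : M) (F : FPoset M) : Prop where
  P : ∀ p, E p F.P ↔ ∃ c : Cn (Ix l), VC (Tt l T) c ∧ Enc l p c
  ex : ∀ c : Cn (Ix l), VC (Tt l T) c → ∃ p, Enc l p c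
  le : ∀ p q, F.le p q ↔ Sub q p
  one : F.one = emp

/-- the first index in a fact -/
noncomputable def x1 (z : M) : M := CC.fst (CC.snd (CC.snd z))

/-- the second index in a fact -/
noncomputable def x2 (z : M) : M := CC.snd (CC.snd (CC.snd z))

instance {n : ℕ} {t : (Fin n → M) → M} [ht : DfT t] : DfT (fun v => x1 (t v)) := by
  unfold x1; infer_instance

instance {n : ℕ} {t : (Fin n → M) → M} [ht : DfT t] : DfT (fun v => x2 (t v)) := by
  unfold x2; infer_instance

@[simp] theorem x1_fct (g j i k : M) : x1 (fct g j i k) = i := by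
  unfold x1 fct; simp

@[simp] theorem x2_fct (g j i k : M) : x2 (fct g j i k) = k := by
  unfold x2 fct; simp

/-- the support of a condition -/
noncomputable def SP (p : M) : M := bun (img p (fun z => x1 z)) (img p (fun z => x2 z))

theorem SP_df : Fn1 (fun p : M => SP p) := by unfold SP; infer_instance

instance {n : ℕ} {t : (Fin n → M) → M} [ht : DfT t] : DfT (fun v => SP (t v)) :=
  SP_df.comp1 ht

theorem mem_SP {p i : M} : E i (SP p) ↔ ∃ z, E z p ∧ (i = x1 z ∨ i = x2 z) := by
  unfold SP
  rw [mem_bun, mem_img' inferInstance, mem_img' inferInstance]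
  constructor
  · rintro (⟨z, hz, e⟩ | ⟨z, hz, e⟩)
    · exact ⟨z, hz, Or.inl e⟩
    · exact ⟨z, hz, Or.inr e⟩
  · rintro ⟨z, hz, e | e⟩
    · exact Or.inl ⟨z, hz, e⟩
    · exact Or.inr ⟨z, hz, e⟩

/-- the restriction of a condition to `X` -/
noncomputable def rst (p X : M) : M := sep p (fun z => E (x1 z) X ∧ E (x2 z) X)

theorem rst_df : Fn2 (fun p X : M => rst p X) := by unfold rst; infer_instance

instance {n : ℕ} {t s : (Fin n → M) → M} [ht : DfT t] [hs : DfT s] :
    DfT (fun v => rst (t v) (s v)) := rst_df.comp2 ht hs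

theorem mem_rst {p X z : M} : E z (rst p X) ↔ E z p ∧ E (x1 z) X ∧ E (x2 z) X := by
  unfold rst; rw [mem_sep' inferInstance]

/-- the conditions with support in `X` -/
noncomputable def PD (P X : M) : M := sep P (fun p => Sub (SP p) X)

theorem PD_df : Fn2 (fun P X : M => PD P X) := by unfold PD; infer_instance

instance {n : ℕ} {t s : (Fin n → M) → M} [ht : DfT t] [hs : DfT s] :
    DfT (fun v => PD (t v) (s v)) := PD_df.comp2 ht hs

theorem mem_PD {P X p : M} : E p (PD P X) ↔ E p P ∧ Sub (SP p) X := by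
  unfold PD; rw [mem_sep' inferInstance]

/-- facts about the set `P` of conditions -/
structure CFac (l T P : M) : Prop where
  emp : E emp P
  fnt : ∀ p, E p P → Fnt p
  fct : ∀ p z, E p P → E z p → ∃ g j i k, z = fct g j i k ∧ E j om ∧ E i l ∧ E k l ∧
    (g = nu 0 ∨ g = nu 1 ∨ g = nu 2) ∧ (g = nu 2 → E k (nb T i)) ∧ (g ≠ nu 2 → i = k)
  rs : ∀ p X, E p P → E (rst p X) P
  ama : ∀ p q X, E p P → E q P → (∀ i, E i (SP p) → E i (SP q) → E i X) → Sub (rst p X) q →
    (∀ i, E i (SP p) → ¬ E i X → ∀ d e, E d X → E e X → E i (nb T d) → E i (nb T e) → d = e) →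
    Cpt P p q

/-- facts about the restrictions of conditions to a set `X` -/
structure XFac (P X : M) : Prop where
  rs : ∀ p, E p P → E (rst p X) (PD P X)
  le : ∀ p, Sub (rst p X) p
  mono : ∀ p q, Sub p q → Sub (rst p X) (rst q X)
  self : ∀ p, E p (PD P X) → rst p X = p
  /-- the restriction of a larger condition contains all smaller conditions over `X` -/
  up : ∀ p q, E p (PD P X) → E q P → Sub p q → Sub p (rst q X)
  /-- amalgamation -/
  ama : ∀ p q, E p P → E q (PD P X) → Sub (rst p X) q → Cpt P p q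

/-! ### forced membership -/

/-- `p` forces that `j` belongs to the name `σ` (a set of pairs (number, condition)) -/
def Fo (P σ p j : M) : Prop := ∀ q, E q P → Sub p q → ∃ r, E r P ∧ Sub q r ∧
  ∃ q', E (opair j q') σ ∧ Sub q' r

theorem Fo_df : Df (fun v : Fin 4 → M => Fo (v 0) (v 1) (v 2) (v 3)) := by
  unfold Fo; infer_instance

instance {n : ℕ} {t s u x : (Fin n → M) → M} [ht : DfT t] [hs : DfT s] [hu : DfT u]
    [hx : DfT x] : Df (fun v => Fo (t v) (s v) (u v) (x v)) :=
  Fo_df.comp4 (R := fun a b c d => Fo a b c d) ht hs hu hx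

/-- `p` forces that the list `s` is an initial segment of the sequence with the name `σ` -/
def Fl (P σ p : M) (s : List ℕ) : Prop := ∀ k v : ℕ, s[k]? = some v →
  Fo P σ p (nu (Nat.pair k v))

/-- `g` forces that `σ` and `τ` are names of (graphs of) sequences of numbers, and that the
initial segments of the first one of length at least `m` belong to the second one -/
structure OK (P g σ τ : M) (m : ℕ) : Prop where
  tot : ∀ p, E p P → Sub g p → ∀ n : ℕ, ∃ (r : M) (s u : List ℕ), E r P ∧ Sub p r ∧
    s.length = n ∧ u.length = n + 1 ∧ Fl P σ r s ∧ Fl P τ r u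
  ons : ∀ p, E p P → Sub g p → ∀ k v v' : ℕ, Fo P σ p (nu (Nat.pair k v)) →
    Fo P σ p (nu (Nat.pair k v')) → v = v'
  ont : ∀ p, E p P → Sub g p → ∀ k v v' : ℕ, Fo P τ p (nu (Nat.pair k v)) →
    Fo P τ p (nu (Nat.pair k v')) → v = v'
  good : ∀ p, E p P → Sub g p → ∀ s u : List ℕ, u.length = s.length + 1 → m ≤ s.length →
    Fl P σ p s → Fl P τ p u → spl u ∧ s ∈ lv u s.length

open Classical in
/-- the value of the name `σ`, as a 0-1-sequence -/
noncomputable def vl (G : M → Prop) (σ : M) : Rl := fun j =>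
  decide (∃ q, G q ∧ E (opair (nu j) q) σ)

end

/-! ### the extension -/

section
variable {M : Type} [SetStr M] [ZF M]

/-- the value of the name `t` for the filter `g` -/
noncomputable def ev (g t : M) : M := sep om (fun j => ∃ q, E q g ∧ E (opair j q) t)

theorem ev_df : Fn2 (fun a b : M => ev a b) := by unfold ev; infer_instance

instance {n : ℕ} {t s : (Fin n → M) → M} [ht : DfT t] [hs : DfT s] :
    DfT (fun v => ev (t v) (s v)) := ev_df.comp2 ht hs

theorem mem_ev {g t j : M} : E j (ev g t) ↔ E j om ∧ ∃ q, E q g ∧ E (opair j q) t := by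
  unfold ev; rw [mem_sep' inferInstance]

/-- the set of all vertices with reals in `R` -/
noncomputable def vrt (R : M) : M :=
  bun (img R (fun x => opair emp x)) (img R (fun x => opair (sing emp) x))

instance {n : ℕ} {t : (Fin n → M) → M} [ht : DfT t] : DfT (fun v => vrt (t v)) :=
  DfT.comp1 (f := fun a => vrt a) (by unfold vrt; infer_instance) ht

end

section
variable {M : Type} [SetStr M] [ZF M]

/-- the generic filter as an element of the extension -/
noncomputable def gg (F : FPoset M) (G : M → Prop) : Ext F G := mk F G (Gnm F)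

/-- the real with the name `σ` -/
noncomputable def va (F : FPoset M) (G : M → Prop) [ZF (Ext F G)] (σ : M) : Ext F G :=
  ev (gg F G) (emb F G σ)

/-- `x` is a real of the extension which has a name with support in `X` -/
def InR (F : FPoset M) (G : M → Prop) [ZF (Ext F G)] (X : M) (x : Ext F G) : Prop :=
  ∃ σ : M, Sub σ (prod om (PD F.P X)) ∧ x = va F G σ

/-- the set of the reals with names with support in `X`, as a function in the extension -/
noncomputable def RN (F : FPoset M) (G : M → Prop) [ZF (Ext F G)] (X : Ext F G) : Ext F G :=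
  img (sep (emb F G (pow (prod om F.P))) (fun σ => ∀ z, E z σ → Sub (SP (CC.snd z)) X))
    (fun σ => ev (gg F G) σ)

instance {F : FPoset M} {G : M → Prop} [ZF (Ext F G)] {n : ℕ}
    {t : (Fin n → Ext F G) → Ext F G} [ht : DfT t] : DfT (fun v => RN F G (t v)) :=
  DfT.comp1 (f := fun a => RN F G a) (by unfold RN; infer_instance) ht

end

end AO.BP
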