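import Pool.Agent.H36.AO.PDefs

/-!
Statements of the modules about the second notion of forcing.
-/

set_option linter.unusedVariables false
set_option linter.unusedSectionVars false
set_option synthInstance.maxSize 100000

namespace AO.BP

open SW

/-! ### conditions in the model -/

/-- STF: finite sets in models with standard natural numbers -/
def STFStmt : Prop := ∀ (M : Type) [SetStr M] [ZF M], Std M →
  (∀ x : M, Fnt x ↔ {z | E z x}.Finite) ∧ ∀ S : Set M, S.Finite → ∃ x, ∀ z, E z x ↔ z ∈ S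

/-- GFD: definability of conditions -/
def GFDStmt : Prop := ∀ (M : Type) [SetStr M] [ZF M] (l T : M), MR M →
  Cl (fun p : M => ∃ c : Cn (Ix l), VC (Tt l T) c ∧ Enc l p c)

/-- GFE: the notion of forcing exists -/
def GFEStmt : Prop := ∀ (M : Type) [SetStr M] [ZF M] (l T : M), MR M → ∃ F : FPoset M, GF l T F

/-- CFA: facts about conditions -/
def CFAStmt : Prop := ∀ (M : Type) [SetStr M] [ZF M] (l T : M) (F : FPoset M), MR M →
  GF l T F → CFac l T F.P

/-- XFC: facts about restrictions -/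
def XFCStmt : Prop := ∀ (M : Type) [SetStr M] [ZF M] (l T P X : M), CFac l T P → Gd T X →
  XFac P X

/-- CCB: the countable chain condition -/
def CCBStmt : Prop := ∀ (M : Type) [SetStr M] [ZFC M] (l T P : M), Tm l T → CFac l T P → CCC P

/-- GNR: the generic sequences -/
def GNRStmt : Prop := ∀ (M : Type) [SetStr M] [ZF M] (l T : M) (F : FPoset M) (G : M → Prop),
  MR M → GF l T F → Gen F G → ∃ a t : Ix l → ℕ → ℕ,
    (∀ (i : Ix l) (j : ℕ), (∃ p, G p ∧ E (fct (nu 0) (nu j) i.1 i.1) p) ↔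
      a i (Nat.unpair j).1 = (Nat.unpair j).2) ∧
    (∀ (d : Ix l) (j : ℕ), (∃ p, G p ∧ E (fct (nu 1) (nu j) d.1 d.1) p) ↔
      t d (Nat.unpair j).1 = (Nat.unpair j).2) ∧
    (∀ d i, Tt l T d i → EE (t d) (a i)) ∧ (∀ i j, a i = a j → i = j) ∧
    ∀ d e, t d = t e → d = e

/-! ### forcing and restrictions -/

section
variable {M : Type} [SetStr M] [ZF M]

/-- the order is reverse inclusion -/
def RI (F : FPoset M) : Prop := ∀ p q, F.le p q ↔ Sub q p

/-- facts about values of names -/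
structure VlFac (F : FPoset M) (G : M → Prop) : Prop where
  up : ∀ σ p q j, Fo F.P σ p j → E q F.P → Sub p q → Fo F.P σ q j
  /-- the truth lemma -/
  tr : ∀ σ, Sub σ (prod om F.P) → ∀ j : ℕ, vl G σ j = true ↔ ∃ p, G p ∧ Fo F.P σ p (nu j)
  /-- initial segments are decided -/
  seg : ∀ σ (a : ℕ → ℕ) (n : ℕ) q, Sub σ (prod om F.P) → vl G σ = gc a → G q →
    ∃ p, G p ∧ Sub q p ∧ Fl F.P σ p (ini a n)
  /-- initial segments are decided by conditions over `X` -/
  segX : ∀ X σ (a : ℕ → ℕ) (n : ℕ) q, XFac F.P X → Sub σ (prod om (PD F.P X)) →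
    vl G σ = gc a → G q → E q (PD F.P X) →
    ∃ p, G p ∧ E p (PD F.P X) ∧ Sub q p ∧ Fl F.P σ p (ini a n)
  gs : ∀ σ (a : ℕ → ℕ) (s : List ℕ) p, Sub σ (prod om F.P) → vl G σ = gc a → G p →
    Fl F.P σ p s → s = ini a s.length

/-- definability of forced statements -/
structure DfoFac (P : M) : Prop where
  ok : Df (fun v : Fin 4 → M => ∃ m : ℕ, v 3 = nu m ∧ OK P (v 0) (v 1) (v 2) m)
  fl : ∀ (σ : M) (n : ℕ), Cl (fun r : M => ∃ s : List ℕ, s.length = n ∧ Fl P σ r s)

end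

/-- RSF: forced membership and restrictions -/
def RSFStmt : Prop := ∀ (M : Type) [SetStr M] [ZF M] (P X : M), XFac P X →
  (∀ σ p j, Sub σ (prod om (PD P X)) → E p P → (Fo P σ p j ↔ Fo P σ (rst p X) j)) ∧
  ∀ σ τ g m, Sub σ (prod om (PD P X)) → Sub τ (prod om (PD P X)) → E g P → OK P g σ τ m →
    OK P (rst g X) σ τ m

/-- VLF: values of names -/
def VLFStmt : Prop := ∀ (M : Type) [SetStr M] [ZF M] (F : FPoset M) (G : M → Prop), RI F →
  Gen F G → VlFac F G

/-- DFO: definability -/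
def DFOStmt : Prop := ∀ (M : Type) [SetStr M] [ZF M] (P : M), MR M → DfoFac P

/-- TRU: the truth lemma for the relation between sequences -/
def TRUStmt : Prop := ∀ (M : Type) [SetStr M] [ZF M] (F : FPoset M) (G : M → Prop), MR M →
  RI F → Gen F G → ∀ (σ τ : M) (a t : ℕ → ℕ) (m : ℕ), Sub σ (prod om F.P) →
  Sub τ (prod om F.P) → vl G σ = gc a → vl G τ = gc t → Adm t →
  (∀ l, m ≤ l → ini a l ∈ fs (t l)) → ∃ g, G g ∧ OK F.P g σ τ m

/-- OKV: the converse -/
def OKVStmt : Prop := ∀ (M : Type) [SetStr M] [ZF M] (F : FPoset M) (G : M → Prop), MR M →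
  RI F → Gen F G → ∀ (σ τ g : M) (m : ℕ), Sub σ (prod om F.P) → Sub τ (prod om F.P) → G g →
  OK F.P g σ τ m → ∃ a t : ℕ → ℕ, vl G σ = gc a ∧ vl G τ = gc t

/-- KCA: two initial segments of the first sequence, forced by two conditions which force the
same initial segment of the second one -/
def KCAStmt : Prop := ∀ (M : Type) [SetStr M] [ZF M] (P g σ τ p q : M) (m l : ℕ)
  (s s' u : List ℕ), OK P g σ τ m → E p P → E q P → Sub g p → Sub g q → Fl P σ p s →
  Fl P σ q s' → s.length = l + 1 → s'.length = l + 1 → s.take l = s'.take l → s ≠ s' → m ≤ l →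
  u.length = l + 2 → Fl P τ p u → Fl P τ q u →
  (Nat.unpair (s.getD l 0)).1 = lc (u.take (l + 1))

/-- KCB: initial segments of two neighbours of the same sequence, forced by the same
condition -/
def KCBStmt : Prop := ∀ (M : Type) [SetStr M] [ZF M] (P τ p g₁ σ₁ g₂ σ₂ : M) (m l n v : ℕ)
  (s₁ s₂ : List ℕ), OK P g₁ σ₁ τ m → OK P g₂ σ₂ τ m → E p P → Sub g₁ p → Sub g₂ p →
  Fl P σ₁ p s₁ → Fl P σ₂ p s₂ → s₁.length = l + 1 → s₂.length = l + 1 →
  s₁.take l = s₂.take l → s₁ ≠ s₂ → m ≤ l → n ≤ l → Fo P τ p (nu (Nat.pair n v)) →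
  ∃ w : List ℕ, (Nat.unpair (s₁.getD l 0)).1 = lc w ∧ w[n]? = some v

/-- QGN: conditions whose restriction to `X` is in the generic filter have extensions in dense
classes with the same property -/
def QGNStmt : Prop := ∀ (M : Type) [SetStr M] [ZF M] (F : FPoset M) (G : M → Prop) (X : M),
  RI F → Gen F G → XFac F.P X → ∀ C : M → Prop, Cl C → ∀ p q, E p F.P → G (rst p X) → G q →
  E q (PD F.P X) → (∀ r, E r F.P → Sub p r → ∃ r', E r' F.P ∧ Sub r r' ∧ C r') →
  ∃ p', E p' F.P ∧ Sub p p' ∧ Sub q p' ∧ C p' ∧ G (rst p' X)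

/-! ### neighbours of new reals -/

/-- KLA: a new real of the second side has at most one old neighbour -/
def KLAStmt : Prop := ∀ (M : Type) [SetStr M] [ZF M] (F : FPoset M) (G : M → Prop) (X : M),
  MR M → RI F → Gen F G → XFac F.P X → ∀ σ τ τ' : M, Sub σ (prod om F.P) →
  Sub τ (prod om (PD F.P X)) → Sub τ' (prod om (PD F.P X)) →
  (∀ ρ, Sub ρ (prod om (PD F.P X)) → vl G ρ ≠ vl G σ) → ZZ (vl G τ) (vl G σ) →
  ZZ (vl G τ') (vl G σ) → vl G τ = vl G τ'

/-- KLB: the old neighbours of a new real of the first side, if the part over `C` of the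
condition is given -/
def KLBStmt : Prop := ∀ (M : Type) [SetStr M] [ZF M] (F : FPoset M) (G : M → Prop)
  (X D C : M), MR M → RI F → Gen F G → XFac F.P X → XFac F.P D → Sub D X → Sub C X →
  (∀ p z, E p (PD F.P X) → E z p → E z (rst p D) ∨ E z (rst p C)) →
  ∀ τ : M, Sub τ (prod om (PD F.P C)) →
  (∀ ρ, Sub ρ (prod om (PD F.P D)) → vl G ρ ≠ vl G τ) → ∀ (m : ℕ) (s : M),
  ∃ n : ℕ, ∀ g g' σ σ' : M, G g → G g' → E g (PD F.P X) → E g' (PD F.P X) →
    Sub σ (prod om (PD F.P D)) → Sub σ' (prod om (PD F.P D)) → OK F.P g σ τ m →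
    OK F.P g' σ' τ m → rst g C = s → rst g' C = s →
    (∀ j : ℕ, (Nat.unpair j).1 < n → vl G σ j = vl G σ' j) → vl G σ = vl G σ'

/-! ### the extension -/

/-- NAM: countable names -/
def NAMStmt : Prop := ∀ (M : Type) [SetStr M] [ZFC M] (F : FPoset M) (G : M → Prop), RI F →
  CCC F.P → Gen F G → ∀ σ, Sub σ (prod om F.P) → ∃ τ, Sub τ σ ∧ Cb τ ∧ vl G τ = vl G σ

/-- CVC: countable sets of the extension are covered by countable sets of the model, uniformly -/
def CVCStmt : Prop := ∀ (M : Type) [SetStr M] [ZFC M] [Countable M] (F : FPoset M)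
  (G : M → Prop), RI F → CCC F.P → Gen F G → ∀ [ZFC (Ext F G)] (X Y : M)
  (g : Ext F G → Ext F G), Fn1 g → (∀ x, E x X → Cb (g (emb F G x))) →
  ∃ H : M, (∀ x, E x X → Cb (app H x) ∧ Sub (app H x) Y) ∧
    ∀ x y, E x X → E y Y → E (emb F G y) (g (emb F G x)) → E y (app H x)

section
variable {M : Type} [SetStr M] [ZF M]

/-- cardinalities in the extension -/
structure CprFac (F : FPoset M) (G : M → Prop) [ZF (Ext F G)] : Prop where
  cbu : ∀ x : M, Cb x → Cb (emb F G x)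
  cbd : ∀ x : M, Cb (emb F G x) → Cb x
  alf : ∀ (n : ℕ) (w : M), Alf n w → Alf n (emb F G w)
  szu : ∀ (n : ℕ) (x : M), Sz n x → Sz n (emb F G x)

/-- absoluteness -/
structure AbsFac (F : FPoset M) (G : M → Prop) [ZF (Ext F G)] : Prop where
  app : ∀ f x : M, app (emb F G f) (emb F G x) = emb F G (app f x)
  nb : ∀ T d : M, nb (emb F G T) (emb F G d) = emb F G (nb T d)
  prod : ∀ x y : M, prod (emb F G x) (emb F G y) = emb F G (prod x y)
  inter : ∀ x y : M, inter (emb F G x) (emb F G y) = emb F G (inter x y)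
  fst : ∀ x : M, CC.fst (emb F G x) = emb F G (CC.fst x)
  snd : ∀ x : M, CC.snd (emb F G x) = emb F G (CC.snd x)
  sp : ∀ x : M, SP (emb F G x) = emb F G (SP x)
  rst : ∀ x y : M, rst (emb F G x) (emb F G y) = emb F G (rst x y)
  fct : ∀ g j i k : M, fct (emb F G g) (emb F G j) (emb F G i) (emb F G k) =
    emb F G (fct g j i k)

/-- evaluation of names -/
structure EvFac (F : FPoset M) (G : M → Prop) [ZF (Ext F G)] : Prop where
  sub : ∀ σ, Sub (va F G σ) om
  mem : ∀ σ (j : ℕ), E (nu j) (va F G σ) ↔ ∃ q, G q ∧ E (opair (nu j) q) σ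
  rb : ∀ σ, rb (va F G σ) = vl G σ
  inj : ∀ x y : Ext F G, Sub x om → Sub y om → AO.rb x = AO.rb y → x = y
  rn : ∀ X x, E x (RN F G (emb F G X)) ↔ InR F G X x
  mono : ∀ X Y x, Sub X Y → InR F G X x → InR F G Y x

end

/-- ABS -/
def ABSStmt : Prop := ∀ (M : Type) [SetStr M] [ZF M] (F : FPoset M) (G : M → Prop), Gen F G →
  ∀ [ZF (Ext F G)], AbsFac F G

/-- EVF -/
def EVFStmt : Prop := ∀ (M : Type) [SetStr M] [ZF M] (F : FPoset M) (G : M → Prop), Std M →
  Gen F G → ∀ [ZF (Ext F G)], EvFac F G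

/-- FUL: all reals of the extension have names -/
def FULStmt : Prop := ∀ (M : Type) [SetStr M] [ZF M] [Countable M] (F : FPoset M)
  (G : M → Prop), Gen F G → ∀ [ZF (Ext F G)] (x : Ext F G), Sub x om →
  ∃ σ : M, Sub σ (prod om F.P) ∧ x = va F G σ

/-- CPR: cardinalities are preserved -/
def CPRStmt : Prop := ∀ (M : Type) [SetStr M] [ZFC M] [Countable M] (F : FPoset M)
  (G : M → Prop), RI F → CCC F.P → Gen F G → ∀ [ZFC (Ext F G)], CprFac F G

/-- COW: covering small sets -/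
def COWStmt : Prop := ∀ (M : Type) [SetStr M] [ZFC M] [Countable M] (F : FPoset M)
  (G : M → Prop), RI F → CCC F.P → Gen F G → ∀ [ZFC (Ext F G)] (n : ℕ) (X : M)
  (A : Ext F G), Sub A (emb F G X) → Sz n A → ∃ c, Sub c X ∧ Sz n c ∧ Sub A (emb F G c)

section
variable {M : Type} [SetStr M] [ZF M]

/-- the general assumptions about the model and the notion of forcing -/
structure Bsp (l T : M) (F : FPoset M) (G : M → Prop) : Prop where
  mr : MR M
  tm : Tm l T
  gf : GF l T F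
  gen : Gen F G
  ccc : CCC F.P

end

/-- CSU: countable supports -/
def CSUStmt : Prop := ∀ (M : Type) [SetStr M] [ZFC M] [Countable M] (l T : M) (F : FPoset M)
  (G : M → Prop), Bsp l T F G → ∀ [ZFC (Ext F G)] (X : M) (x : Ext F G), InR F G X x →
  ∃ τ Y : M, Cb τ ∧ Cb Y ∧ Sub Y X ∧ Sub Y l ∧ Sub τ (prod om (PD F.P Y)) ∧ x = va F G τ

/-- KLC: a new real of the first side has countably many old neighbours -/
def KLCStmt : Prop := ∀ (M : Type) [SetStr M] [ZFC M] [Countable M] (l T : M) (F : FPoset M)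
  (G : M → Prop), Bsp l T F G → ∀ [ZFC (Ext F G)] (D D' : M), Clo T D → Sub D l → Clo T D' →
  Sub D' l → Nic T D D' → ∀ x : Ext F G, InR F G D' x → ¬ InR F G D x →
  ∃ C, Cb C ∧ ∀ y, InR F G D y → ZZ (rb x) (rb y) → E y C

/-- KLD: a new real of the second side has at most one old neighbour -/
def KLDStmt : Prop := ∀ (M : Type) [SetStr M] [ZFC M] [Countable M] (l T : M) (F : FPoset M)
  (G : M → Prop), Bsp l T F G → ∀ [ZFC (Ext F G)] (D : M), Clo T D → Sub D l →
  ∀ x : Ext F G, Sub x om → ¬ InR F G D x →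
  ∀ y y', InR F G D y → InR F G D y' → ZZ (rb y) (rb x) → ZZ (rb y') (rb x) → y = y'

/-- BDX: the bad graph -/
def BDXStmt : Prop := ∀ (M : Type) [SetStr M] [ZFC M] [Countable M] (l T : M) (F : FPoset M)
  (G : M → Prop), Bsp l T F G → ∀ [ZFC (Ext F G)],
  ∃ y w, Bad (emb F G l) (emb F G T) y w

/-- VSZ: the number of reals with names of size aleph one, under CH -/
def VSZStmt : Prop := ∀ (M : Type) [SetStr M] [ZFC M] [Countable M] (l T : M) (F : FPoset M)
  (G : M → Prop), Bsp l T F G → Sz 1 (pow om : M) → ∀ [ZFC (Ext F G)] (D : M), Sub D l →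
  Sz 1 D → Sz 1 (vrt (RN F G (emb F G D)))

/-- TOP: small sets of vertices have names in small closed sets -/
def TOPStmt : Prop := ∀ (M : Type) [SetStr M] [ZFC M] [Countable M] (l T : M) (F : FPoset M)
  (G : M → Prop), Bsp l T F G → ∀ [ZFC (Ext F G)] (n : ℕ) (V : Ext F G), IsV V → Sz n V →
  ∃ D : M, Clo T D ∧ Sub D l ∧ Sz (n + 1) D ∧ Sub V (vrt (RN F G (emb F G D)))

/-- BSG: good orders of sets of size aleph one -/
def BSGStmt : Prop := ∀ (N : Type) [SetStr N] [ZFC N] (V : N), Sz 1 V → ∃ W, GW V W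

/-- GLU: a good order of the union of an increasing sequence -/
def GLUStmt : Prop := ∀ (N : Type) [SetStr N] [ZFC N] (k : N) (V : N → N), ZD N → Ord k →
  Fn1 V → (∀ r, E r k → ∃ W, GW (V r) W) →
  (∀ r r', E r k → E r' r → Sub (V r') (V r)) →
  (∀ r v, E r k → E v (V r) → (∀ r', E r' r → ¬ E v (V r')) →
    ∃ e, Cb e ∧ Sub e r ∧ ∀ r', E r' r → ∃ u, E u e ∧ (E r' u ∨ r' = u)) →
  (∀ u r v, E u k → E r k → E v (V r) → ¬ E v (V u) →
    ∃ C, Cb C ∧ ∀ v', E v' (V u) → Nb v' v → E v' C) →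
  ∃ W, GW (sUn (img k V)) W

/-- STP: the induction step -/
def STPStmt : Prop := ∀ (M : Type) [SetStr M] [ZFC M] [Countable M] (l T : M) (F : FPoset M)
  (G : M → Prop), Bsp l T F G → ∀ [ZFC (Ext F G)] (D k d : M) (n : ℕ), ZD (Ext F G) →
  Clo T D → Sub D l → Chn T n D k d →
  (∀ v, E v k → ∃ W, GW (vrt (RN F G (emb F G (app d v)))) W) →
  ∃ W, GW (vrt (RN F G (emb F G D))) W

end AO.BP
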